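import Pool.Agent.L7h65.RL.Jf
import Pool.Agent.L7h85.RL.Stm4

/-!
# Numbers of Jordan blocks in tensor products and in tensor powers of unipotent operators
-/

set_option autoImplicit false

namespace Pool.Agent.L7h65.RL

open TensorProduct

universe v w

lemma nblk_eq {K : Type*} [Field K] {V : Type*} [AddCommGroup V] [Module K V] (N : V →ₗ[K] V)
    (j : ℕ) : Pool.Agent.L7h85.RL.nblk N j = nb N j := rfl

theorem s_BLT : Pool.Agent.L7h85.RL.S_BLT.{v, w} := by
  intro K _ _ U B _ _ _ _ _ _ u b hu hb H hH j hj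
  simp only [nblk_eq] at hH ⊢
  obtain ⟨hn, -, hs, -⟩ := rk_tensor.{w} u hu
  obtain ⟨hnb, -, -, -⟩ := rk_tensor.{w} b hb
  have hH0 : 0 ≤ H := (hnb 1 le_rfl).trans (hH 1 le_rfl)
  have hA : ∀ l : ℤ, Af (b - 1) l ≤ H := by
    intro l
    unfold Af od
    split_ifs with h1 h2
    · exact hH _ (by omega)
    · have := hnb (-l).toNat (by omega)
      omega
    · exact hH0
  have h1 := Af_map.{w} u hu b hb j
  rw [Af, od_nat _ hj] at h1
  rw [h1]
  calc ∑ m ∈ Finset.Icc 1 (Module.finrank K U),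
        nb (u - 1) m * ∑ k ∈ Finset.range m, Af (b - 1) ((j : ℤ) + 1 - m + 2 * k)
      ≤ ∑ m ∈ Finset.Icc 1 (Module.finrank K U), nb (u - 1) m * (m * H) := by
        refine Finset.sum_le_sum fun m hm => mul_le_mul_of_nonneg_left ?_
          (hn m (Finset.mem_Icc.1 hm).1)
        have := Finset.sum_le_card_nsmul (Finset.range m)
          (fun k : ℕ => Af (b - 1) ((j : ℤ) + 1 - m + 2 * k)) H (fun k _ => hA _)
        rwa [Finset.card_range, nsmul_eq_mul] at this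
    _ = Module.finrank K U * H := by
        rw [← hs, Finset.sum_mul]
        exact Finset.sum_congr rfl fun m _ => by ring

theorem s_BLK : Pool.Agent.L7h85.RL.S_BLK.{v, w} := by
  intro K _ _ V _ _ _ e u he hu hne
  obtain ⟨hn, -, hs, -⟩ := rk_tensor.{w} (u 0) hu
  obtain ⟨s, hs2, hsD, hns⟩ := exists_block (u 0) hu hne
  set D := Module.finrank K (V 0) with hD
  have hD0 : (0 : ℝ) < D := by exact_mod_cast (by omega : 0 < D)
  refine ⟨D, hD0, fun n j hj => ?_⟩
  have h1 := (Af_pow V e u he hu n).2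
  have h2 := op_bound D (nb (u 0 - 1)) hn hs s hs2 hsD hns (n + 1) j
  rw [← h1, Af, od_nat _ hj] at h2
  rw [nblk_eq]
  have h3 : ((n : ℝ) + 1 + 1) * (nb (u n - 1) j : ℝ) ≤ (D : ℝ) ^ (n + 1 + 1) := by
    have h4 : (((n + 1 : ℕ) : ℤ) + 1) * nb (u n - 1) j ≤ (D : ℤ) ^ (n + 1 + 1) :=
      (mul_le_mul_of_nonneg_left (le_abs_self _) (by positivity)).trans h2
    have h5 := (Int.cast_le (R := ℝ)).2 h4
    push_cast at h5
    exact h5
  have h0 : (0 : ℝ) ≤ nb (u n - 1) j := by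
    obtain ⟨hm, -, -, -⟩ := rk_tensor.{w} (u n) (Af_pow V e u he hu n).1
    exact_mod_cast hm j hj
  rw [le_div_iff₀ (by positivity)]
  calc (nb (u n - 1) j : ℝ) * ((n : ℝ) + 1) ≤ ((n : ℝ) + 1 + 1) * (nb (u n - 1) j : ℝ) := by
        nlinarith
    _ ≤ (D : ℝ) ^ (n + 1 + 1) := h3
    _ = D * (D : ℝ) ^ (n + 1) := by ring

end Pool.Agent.L7h65.RL
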