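import Mathlib

/-!
# Ranks of powers of tensor products with unipotent operators
-/

set_option autoImplicit false

namespace Pool.Agent.L7h65.RL

open TensorProduct Polynomial

universe v w

section basic

variable {K : Type*} [Field K]

/-- The rank of a linear map. -/
noncomputable def rk {V V' : Type*} [AddCommGroup V] [Module K V] [AddCommGroup V'] [Module K V']
    (f : V →ₗ[K] V') : ℕ := Module.finrank K (LinearMap.range f)

lemma rk_equiv {V V' W W' : Type*} [AddCommGroup V] [Module K V] [AddCommGroup V'] [Module K V']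
    [AddCommGroup W] [Module K W] [AddCommGroup W'] [Module K W']
    (e : V ≃ₗ[K] V') (e' : W ≃ₗ[K] W') (f : V →ₗ[K] W) (g : V' →ₗ[K] W')
    (h : ∀ x, g (e x) = e' (f x)) : rk g = rk f := by
  have : LinearMap.range g = (LinearMap.range f).map (e' : W →ₗ[K] W') := by
    ext y; constructor
    · rintro ⟨x, rfl⟩
      refine ⟨f (e.symm x), ⟨_, rfl⟩, ?_⟩
      rw [LinearEquiv.coe_coe, ← h, e.apply_symm_apply]
    · rintro ⟨_, ⟨x, rfl⟩, rfl⟩
      exact ⟨e x, h x⟩
  unfold rk
  rw [this]
  exact LinearEquiv.finrank_map_eq e' _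

lemma pow_int {V V' : Type*} [AddCommGroup V] [Module K V] [AddCommGroup V'] [Module K V']
    (e : V →ₗ[K] V') (f : V →ₗ[K] V) (g : V' →ₗ[K] V') (h : ∀ x, g (e x) = e (f x)) (i : ℕ)
    (x : V) : (g ^ i) (e x) = e ((f ^ i) x) := by
  induction i generalizing x with
  | zero => simp
  | succ i ih => rw [pow_succ, pow_succ, Module.End.mul_apply, Module.End.mul_apply, h, ih]

lemma rk_conj {V V' : Type*} [AddCommGroup V] [Module K V] [AddCommGroup V'] [Module K V']
    (e : V ≃ₗ[K] V') (f : V →ₗ[K] V) (g : V' →ₗ[K] V') (h : ∀ x, g (e x) = e (f x)) (i : ℕ) :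
    rk (g ^ i) = rk (f ^ i) :=
  rk_equiv e e _ _ (pow_int (e : V →ₗ[K] V') f g h i)

/-- Ranks are additive. -/
lemma rk_add {ι : Type*} [Fintype ι] [DecidableEq ι] {Y : Type*} {Z : ι → Type*}
    [AddCommGroup Y] [Module K Y] [Module.Finite K Y] [∀ l, AddCommGroup (Z l)]
    [∀ l, Module K (Z l)] [∀ l, Module.Finite K (Z l)]
    (p : ∀ l, Y →ₗ[K] Z l) (q : ∀ l, Z l →ₗ[K] Y) (hpq : ∀ l z, p l (q l z) = z)
    (hpq0 : ∀ l m z, l ≠ m → p l (q m z) = 0) (hs : ∀ y, ∑ l, q l (p l y) = y)
    (G : Y →ₗ[K] Y) (G' : ∀ l, Z l →ₗ[K] Z l) (h : ∀ l y, p l (G y) = G' l (p l y)) :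
    rk G = ∑ l, rk (G' l) := by
  have hr : ∀ l, ∀ y ∈ LinearMap.range G, p l y ∈ LinearMap.range (G' l) := by
    rintro l _ ⟨x, rfl⟩
    rw [h]; exact ⟨_, rfl⟩
  let Φ : LinearMap.range G →ₗ[K] (∀ l, LinearMap.range (G' l)) :=
    LinearMap.pi fun l => (p l).restrict (hr l)
  have hΦ : ∀ y l, ((Φ y l : LinearMap.range (G' l)) : Z l) = p l y := fun y l => rfl
  have hinj : Function.Injective Φ := by
    rw [injective_iff_map_eq_zero]
    intro y hy
    apply Subtype.ext
    rw [← hs y.1]
    refine Finset.sum_eq_zero fun l _ => ?_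
    rw [← hΦ y l, hy]
    simp
  have hsur : Function.Surjective Φ := by
    intro z
    choose t ht using fun l => (z l).2
    refine ⟨⟨G (∑ m, q m (t m)), ⟨_, rfl⟩⟩, ?_⟩
    funext l
    apply Subtype.ext
    rw [hΦ, h, map_sum, Finset.sum_eq_single l, hpq, ht]
    · intro m _ hm
      exact hpq0 _ _ _ (Ne.symm hm)
    · intro h; exact absurd (Finset.mem_univ l) h
  have h1 := (LinearEquiv.ofBijective Φ ⟨hinj, hsur⟩).finrank_eq
  rw [Module.finrank_pi_fintype] at h1
  exact h1

/-- The block of size `k`. -/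
abbrev Q (K : Type*) [Field K] (k : ℕ) := K[X] ⧸ K[X] ∙ (X : K[X]) ^ k

/-- Multiplication by `X`. -/
noncomputable def Xm (K : Type*) [Field K] (k : ℕ) : Q K k →ₗ[K] Q K k :=
  (LinearMap.lsmul K[X] (Q K k) X).restrictScalars K

lemma Xm_apply (k : ℕ) (x : Q K k) : Xm K k x = (X : K[X]) • x := rfl

lemma Xm_pow_apply (k j : ℕ) (x : Q K k) : (Xm K k ^ j) x = (X : K[X]) ^ j • x := by
  induction j with
  | zero => simp
  | succ j ih => rw [pow_succ', Module.End.mul_apply, ih, Xm_apply, smul_smul, ← pow_succ']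

instance (k : ℕ) : Module.Finite K (Q K k) := by
  have h : (X : K[X]) ^ k ≠ 0 := pow_ne_zero _ X_ne_zero
  exact (AdjoinRoot.powerBasis h).finite

lemma finrank_Q (k : ℕ) : Module.finrank K (Q K k) = k := by
  have h := finrank_quotient_span_eq_natDegree (f := (X : K[X]) ^ k)
  rw [natDegree_X_pow] at h
  exact h

/-- The Jordan decomposition. -/
theorem exists_dec {U : Type*} [AddCommGroup U] [Module K U] [Module.Finite K U] (N : U →ₗ[K] U)
    (hN : IsNilpotent N) : ∃ (d : ℕ) (k : Fin d → ℕ) (p : ∀ l, U →ₗ[K] Q K (k l))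
      (q : ∀ l, Q K (k l) →ₗ[K] U), (∀ l z, p l (q l z) = z) ∧
      (∀ l m z, l ≠ m → p l (q m z) = 0) ∧ (∀ y, ∑ l, q l (p l y) = y) ∧
      (∀ l y, p l (N y) = Xm K (k l) (p l y)) := by
  classical
  obtain ⟨n, hn⟩ := hN
  have ht : Module.IsTorsion' (Module.AEval' N) (Submonoid.powers (X : K[X])) := by
    intro x
    refine ⟨⟨X ^ n, n, rfl⟩, ?_⟩
    obtain ⟨y, rfl⟩ := (Module.AEval'.of N).surjective x
    show (X : K[X]) ^ n • Module.AEval'.of N y = 0
    rw [Module.AEval'.X_pow_smul_of, hn]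
    simp
  obtain ⟨d, k, ⟨e⟩⟩ := Module.torsion_by_prime_power_decomposition irreducible_X ht
  refine ⟨d, k, fun l => ((DirectSum.component K[X] (Fin d) _ l ∘ₗ e.toLinearMap).restrictScalars
    K) ∘ₗ (Module.AEval'.of N).toLinearMap, fun l => (Module.AEval'.of N).symm.toLinearMap ∘ₗ
      ((e.symm.toLinearMap ∘ₗ DirectSum.lof K[X] (Fin d) (fun i => K[X] ⧸ K[X] ∙ X ^ k i) l).restrictScalars
        K), ?_, ?_, ?_, ?_⟩
  · intro l z
    simp
  · intro l m z hlm
    simp only [LinearMap.coe_comp, LinearMap.coe_restrictScalars, LinearEquiv.coe_coe,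
      Function.comp_apply, LinearEquiv.apply_symm_apply]
    rw [DirectSum.component.of, dif_neg (fun h => hlm h.symm)]
  · intro y
    simp only [LinearMap.coe_comp, LinearMap.coe_restrictScalars, LinearEquiv.coe_coe,
      Function.comp_apply]
    rw [← map_sum, ← map_sum]
    have h1 : ∑ l, DirectSum.lof K[X] (Fin d) (fun i => K[X] ⧸ K[X] ∙ X ^ k i) l
        (DirectSum.component K[X] (Fin d) (fun i => K[X] ⧸ K[X] ∙ X ^ k i) l
          (e (Module.AEval'.of N y))) = e (Module.AEval'.of N y) :=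
      DirectSum.sum_univ_of (e (Module.AEval'.of N y))
    rw [h1, e.symm_apply_apply, LinearEquiv.symm_apply_apply]
  · intro l y
    simp only [LinearMap.coe_comp, LinearMap.coe_restrictScalars, LinearEquiv.coe_coe,
      Function.comp_apply, Xm_apply]
    rw [← map_smul, ← map_smul, Module.AEval'.X_smul_of]

lemma X_dvd (k j : ℕ) (f : K[X]) : (X : K[X]) ^ k ∣ X ^ j * f ↔ X ^ (k - j) ∣ f := by
  rcases le_total j k with h | h
  · obtain ⟨m, rfl⟩ := Nat.exists_eq_add_of_le h
    rw [pow_add, mul_dvd_mul_iff_left (pow_ne_zero _ X_ne_zero), Nat.add_sub_cancel_left]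
  · rw [Nat.sub_eq_zero_of_le h, pow_zero]
    exact ⟨fun _ => one_dvd _, fun _ => (pow_dvd_pow _ h).mul_right _⟩

/-- The rank of a power of `X` on the block of size `k`. -/
lemma rk_Xm (k j : ℕ) : rk (Xm K k ^ j) = k - j := by
  let g : K[X] →ₗ[K[X]] Q K k := (K[X] ∙ (X : K[X]) ^ k).mkQ ∘ₗ LinearMap.lsmul K[X] K[X] (X ^ j)
  have hg : ∀ f, g f = (X : K[X]) ^ j • (K[X] ∙ (X : K[X]) ^ k).mkQ f := fun f => by
    show (K[X] ∙ (X : K[X]) ^ k).mkQ ((X : K[X]) ^ j • f) = _
    rw [map_smul]
  have h1 : LinearMap.range (Xm K k ^ j) = (LinearMap.range g).restrictScalars K := by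
    ext y
    simp only [LinearMap.mem_range, Submodule.restrictScalars_mem]
    constructor
    · rintro ⟨x, rfl⟩
      obtain ⟨f, rfl⟩ := Submodule.mkQ_surjective _ x
      exact ⟨f, by rw [hg, Xm_pow_apply]⟩
    · rintro ⟨f, rfl⟩
      exact ⟨_, (by rw [hg, Xm_pow_apply])⟩
  have h2 : LinearMap.ker g = K[X] ∙ (X : K[X]) ^ (k - j) := by
    ext f
    rw [LinearMap.mem_ker, hg, ← map_smul, Submodule.mkQ_apply, Submodule.Quotient.mk_eq_zero,
      smul_eq_mul, Submodule.mem_span_singleton, Submodule.mem_span_singleton]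
    have := X_dvd k j f
    rw [dvd_iff_exists_eq_mul_left, dvd_iff_exists_eq_mul_left] at this
    simpa only [smul_eq_mul, eq_comm] using this
  have e1 : Q K (k - j) ≃ₗ[K[X]] LinearMap.range g :=
    (Submodule.quotEquivOfEq _ _ h2.symm).trans g.quotKerEquivRange
  have e2 := (e1.restrictScalars K).finrank_eq
  rw [finrank_Q] at e2
  unfold rk
  rw [h1]
  exact e2.symm

/-- The number of blocks of size `j`. -/
noncomputable def nb {V : Type*} [AddCommGroup V] [Module K V] (N : V →ₗ[K] V) (j : ℕ) : ℤ :=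
  (rk (N ^ (j - 1)) : ℤ) + rk (N ^ (j + 1)) - 2 * rk (N ^ j)

/-- The ranks for the tensor product with a block. -/
noncomputable def rho {W : Type*} [AddCommGroup W] [Module K W] (w : W →ₗ[K] W) (k i : ℕ) : ℕ :=
  rk ((TensorProduct.map (1 + Xm K k) w - 1) ^ i)

lemma rk_zero_of_finrank {V : Type*} [AddCommGroup V] [Module K V] [Module.Finite K V]
    (h : Module.finrank K V = 0) (f : V →ₗ[K] V) : rk f = 0 :=
  Nat.le_zero.1 ((Submodule.finrank_le _).trans h.le)

lemma rk_one {V : Type*} [AddCommGroup V] [Module K V] : rk (1 : V →ₗ[K] V) = Module.finrank K V := by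
  unfold rk
  have : LinearMap.range (1 : V →ₗ[K] V) = ⊤ := LinearMap.range_id
  rw [this, finrank_top]

/-- The decomposition of the ranks. -/
theorem exists_sizes {U : Type*} [AddCommGroup U] [Module K U] [Module.Finite K U] (u : U →ₗ[K] U)
    (hN : IsNilpotent (u - 1)) : ∃ (d : ℕ) (k : Fin d → ℕ),
      (∀ i, rk ((u - 1) ^ i) = ∑ l, (k l - i)) ∧
      ∀ {W : Type w} [AddCommGroup W] [Module K W] [Module.Finite K W] (w : W →ₗ[K] W) (i : ℕ),
        rk ((TensorProduct.map u w - 1) ^ i) = ∑ l, rho w (k l) i := by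
  classical
  obtain ⟨d, k, p, q, h1, h2, h3, h4⟩ := exists_dec (u - 1) hN
  refine ⟨d, k, ?_, ?_⟩
  · intro i
    rw [rk_add p q h1 h2 h3 ((u - 1) ^ i) (fun l => Xm K (k l) ^ i)]
    · exact Finset.sum_congr rfl fun l _ => rk_Xm _ _
    · intro l y
      exact (pow_int (p l) (u - 1) (Xm K (k l)) (fun x => (h4 l x).symm) i y).symm
  · intro W _ _ _ w i
    have hpu : ∀ l y, p l (u y) = (1 + Xm K (k l)) (p l y) := by
      intro l y
      have := h4 l y
      rw [LinearMap.sub_apply, map_sub, Module.End.one_apply, sub_eq_iff_eq_add] at this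
      rw [this, LinearMap.add_apply, Module.End.one_apply, add_comm]
    rw [rk_add (Y := U ⊗[K] W) (Z := fun l => Q K (k l) ⊗[K] W) (fun l => (p l).rTensor W)
      (fun l => (q l).rTensor W) ?_ ?_ ?_ ((TensorProduct.map u w - 1) ^ i)
      (fun l => (TensorProduct.map (1 + Xm K (k l)) w - 1) ^ i)]
    · rfl
    · intro l y
      refine (pow_int ((p l).rTensor W) (TensorProduct.map u w - 1)
        (TensorProduct.map (1 + Xm K (k l)) w - 1) (fun x => ?_) i y).symm
      induction x with
      | zero => simp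
      | add x y hx hy => rw [map_add, map_add, map_add, map_add, hx, hy]
      | tmul x y =>
        simp only [LinearMap.sub_apply, Module.End.one_apply, TensorProduct.map_tmul,
          LinearMap.rTensor_tmul, map_sub, hpu]
    · intro l z
      induction z with
      | zero => simp
      | add x y hx hy => rw [map_add, map_add, hx, hy]
      | tmul x y => simp only [LinearMap.rTensor_tmul, h1]
    · intro l m z hlm
      induction z with
      | zero => simp
      | add x y hx hy => rw [map_add, map_add, hx, hy, add_zero]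
      | tmul x y => simp only [LinearMap.rTensor_tmul, h2 l m x hlm, zero_tmul]
    · intro z
      induction z with
      | zero => simp
      | add x y hx hy => 
        simp only [map_add, Finset.sum_add_distrib]
        rw [hx, hy]
      | tmul x y => 
        simp only [LinearMap.rTensor_tmul]
        rw [← TensorProduct.sum_tmul, h3]

/-- The ranks for a tensor product in terms of the numbers of blocks. -/
theorem rk_tensor {U : Type*} [AddCommGroup U] [Module K U] [Module.Finite K U] (u : U →ₗ[K] U)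
    (hN : IsNilpotent (u - 1)) : (∀ m, 1 ≤ m → 0 ≤ nb (u - 1) m) ∧
      (∀ m, Module.finrank K U < m → nb (u - 1) m = 0) ∧
      (∑ m ∈ Finset.Icc 1 (Module.finrank K U), nb (u - 1) m * m = Module.finrank K U) ∧
      ∀ {W : Type w} [AddCommGroup W] [Module K W] [Module.Finite K W] (w : W →ₗ[K] W) (i : ℕ),
        (rk ((TensorProduct.map u w - 1) ^ i) : ℤ) =
          ∑ m ∈ Finset.Icc 1 (Module.finrank K U), nb (u - 1) m * rho w m i := by
  classical
  obtain ⟨d, k, h1, h2⟩ := exists_sizes.{w} u hN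
  have hnb : ∀ m, 1 ≤ m → nb (u - 1) m = ∑ l, if k l = m then 1 else 0 := by
    intro m hm
    unfold nb
    rw [h1, h1, h1]
    push_cast
    rw [Finset.mul_sum, ← Finset.sum_add_distrib, ← Finset.sum_sub_distrib]
    refine Finset.sum_congr rfl fun l _ => ?_
    split_ifs <;> omega
  have hD : ∑ l, k l = Module.finrank K U := by
    have := h1 0
    rw [pow_zero, rk_one] at this
    rw [this]; exact Finset.sum_congr rfl fun l _ => (Nat.sub_zero _).symm
  have hk : ∀ l, k l ≤ Module.finrank K U := by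
    intro l
    rw [← hD]
    exact Finset.single_le_sum (f := k) (fun _ _ => Nat.zero_le _) (Finset.mem_univ l)
  have hgen : ∀ f : ℕ → ℤ, f 0 = 0 → ∑ m ∈ Finset.Icc 1 (Module.finrank K U), nb (u - 1) m * f m =
      ∑ l, f (k l) := by
    intro f hf
    have e1 : ∀ m ∈ Finset.Icc 1 (Module.finrank K U), nb (u - 1) m * f m =
        ∑ l, if k l = m then f m else 0 := by
      intro m hm
      rw [hnb m (Finset.mem_Icc.1 hm).1, Finset.sum_mul]
      exact Finset.sum_congr rfl fun l _ => by split_ifs <;> simp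
    rw [Finset.sum_congr rfl e1, Finset.sum_comm]
    refine Finset.sum_congr rfl fun l _ => ?_
    rw [Finset.sum_ite_eq]
    split_ifs with h
    · rfl
    · have : k l = 0 := by
        by_contra h0
        exact h (Finset.mem_Icc.2 ⟨Nat.one_le_iff_ne_zero.2 h0, hk l⟩)
      rw [this, hf]
  refine ⟨fun m hm => ?_, fun m hm => ?_, ?_, ?_⟩
  · rw [hnb m hm]
    exact Finset.sum_nonneg fun _ _ => by split_ifs <;> simp
  · rw [hnb m (by omega)]
    refine Finset.sum_eq_zero fun l _ => ?_
    rw [if_neg]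
    have := hk l
    omega
  · rw [hgen (fun m => (m : ℤ)) rfl, ← hD]
    push_cast
    rfl
  · intro W _ _ _ w i
    rw [hgen (fun m => (rho w m i : ℤ)), h2 w i]
    · push_cast; rfl
    · rw [rho, rk_zero_of_finrank, Nat.cast_zero]
      rw [Module.finrank_tensorProduct, finrank_Q, zero_mul]

end basic

end Pool.Agent.L7h65.RL
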