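import Pool.Agent.L7h65.RL.Jb

/-!
# The Clebsch-Gordan rule for the numbers of Jordan blocks
-/

set_option autoImplicit false

namespace Pool.Agent.L7h65.RL

open TensorProduct Polynomial

universe v w

variable {K : Type*} [Field K]

lemma rk_prodMap {V : Type*} [AddCommGroup V] [Module K V] [Module.Finite K V]
    (f g : V →ₗ[K] V) : rk (LinearMap.prodMap f g) = rk f + rk g := by
  have h := rk_add (ι := Bool) (Y := V × V) (Z := fun _ => V)
    (fun l => match l with
      | true => LinearMap.fst K V V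
      | false => LinearMap.snd K V V)
    (fun l => match l with
      | true => LinearMap.inl K V V
      | false => LinearMap.inr K V V)
    (by rintro (_ | _) z <;> simp) (by rintro (_ | _) (_ | _) z h <;> simp_all)
    (by intro y; simp) (LinearMap.prodMap f g)
    (fun l => match l with
      | true => f
      | false => g) (by rintro (_ | _) z <;> simp)
  rw [h, Fintype.sum_bool]

/-- The block of size two. -/
noncomputable def J2 (K : Type*) [Field K] : (K × K) →ₗ[K] (K × K) :=
  LinearMap.prod (LinearMap.fst K K K) (LinearMap.fst K K K + LinearMap.snd K K K)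

lemma J2_apply (x : K × K) : J2 K x = (x.1, x.1 + x.2) := rfl

section two

variable {W : Type*} [AddCommGroup W] [Module K W]

/-- `K² ⊗ W` is `W²`. -/
noncomputable def psi (K W : Type*) [Field K] [AddCommGroup W] [Module K W] :
    ((K × K) ⊗[K] W) ≃ₗ[K] (W × W) :=
  (TensorProduct.prodLeft K K K K W).trans
    (LinearEquiv.prodCongr (TensorProduct.lid K W) (TensorProduct.lid K W))

lemma psi_tmul (a : K × K) (x : W) : psi K W (a ⊗ₜ x) = (a.1 • x, a.2 • x) := by
  obtain ⟨a, b⟩ := a
  show (TensorProduct.lid K W (TensorProduct.prodLeft K K K K W ((a, b) ⊗ₜ x)).1,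
    TensorProduct.lid K W (TensorProduct.prodLeft K K K K W ((a, b) ⊗ₜ x)).2) = _
  rw [TensorProduct.prodLeft_tmul, TensorProduct.lid_tmul, TensorProduct.lid_tmul]

/-- The operator on `W²`. -/
noncomputable def Gw (w : W →ₗ[K] W) : (W × W) →ₗ[K] (W × W) :=
  LinearMap.prod (w ∘ₗ LinearMap.fst K W W) (w ∘ₗ LinearMap.fst K W W + w ∘ₗ LinearMap.snd K W W)

lemma Gw_apply (w : W →ₗ[K] W) (x : W × W) : Gw w x = (w x.1, w x.1 + w x.2) := rfl

lemma psi_map (w : W →ₗ[K] W) (t : (K × K) ⊗[K] W) :
    psi K W (TensorProduct.map (J2 K) w t) = Gw w (psi K W t) := by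
  induction t with
  | zero => simp
  | add x y hx hy => rw [map_add, map_add, map_add, map_add, hx, hy]
  | tmul x y =>
    rw [TensorProduct.map_tmul, psi_tmul, psi_tmul, Gw_apply, J2_apply]
    simp [add_smul]

lemma Gw_pow (w : W →ₗ[K] W) (j : ℕ) (x y : W) : ((Gw w - 1) ^ (j + 1)) (x, y) =
    (((w - 1) ^ (j + 1)) x, ((w - 1) ^ j) (((j : K) + 1) • w x) + ((w - 1) ^ (j + 1)) y) := by
  have hc : Commute (w - 1) w := (Commute.refl w).sub_left (Commute.one_left w)
  induction j with
  | zero => simp [Gw_apply]; abel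
  | succ j ih =>
    have h1 : w (((w - 1) ^ (j + 1)) x) = ((w - 1) ^ (j + 1)) (w x) := by
      have := (hc.pow_left (j + 1)).eq
      rw [← Module.End.mul_apply, ← this, Module.End.mul_apply]
    have h2 : ∀ (n : ℕ) (z : W), w (((w - 1) ^ n) z) = ((w - 1) ^ (n + 1)) z + ((w - 1) ^ n) z := by
      intro n z
      rw [pow_succ', Module.End.mul_apply, LinearMap.sub_apply, Module.End.one_apply]
      abel
    rw [pow_succ', Module.End.mul_apply, ih, LinearMap.sub_apply, Gw_apply, Module.End.one_apply]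
    ext
    · simp only [Prod.fst_sub]
      rw [h2, add_sub_cancel_right]
    · simp only [Prod.snd_sub]
      rw [map_add, h1, h2 j, h2 (j + 1) y]
      simp only [map_smul]
      push_cast
      rw [add_smul ((j : K) + 1) 1, one_smul]
      abel

/-- The ranks for the tensor product with the block of size two. -/
theorem rk_J2 [CharZero K] [Module.Finite K W] (w : W →ₗ[K] W) (hw : IsNilpotent (w - 1)) (j : ℕ) :
    rk ((TensorProduct.map (J2 K) w - 1) ^ (j + 1)) =
      rk ((w - 1) ^ j) + rk ((w - 1) ^ (j + 2)) := by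
  have hc : Commute (w - 1) w := (Commute.refl w).sub_left (Commute.one_left w)
  have hu : IsUnit w := by
    have := hw.isUnit_one_add
    rwa [add_sub_cancel] at this
  have hu2 : IsUnit (((j : K) + 1) • w) := by
    have h0 : ((j : K) + 1) ≠ 0 := by exact_mod_cast Nat.succ_ne_zero j
    have := hu.smul (Units.mk0 _ h0)
    exact this
  have hb := (Module.End.isUnit_iff _).1 hu2
  let vE : W ≃ₗ[K] W := LinearEquiv.ofBijective _ hb
  have hvE : ∀ x, vE x = ((j : K) + 1) • w x := fun x => rfl
  have hvN : ∀ (n : ℕ) x, vE (((w - 1) ^ n) x) = ((w - 1) ^ n) (vE x) := by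
    intro n x
    rw [hvE, hvE, map_smul]
    congr 1
    have := (hc.pow_left n).eq
    rw [← Module.End.mul_apply, ← this, Module.End.mul_apply]
  have hvN1 : ∀ x, vE ((w - 1) x) = (w - 1) (vE x) := by
    intro x; simpa using hvN 1 x
  -- the two changes of variables
  let e : (W × W) ≃ₗ[K] (W × W) :=
    { toFun := fun x => (vE x.1 + (w - 1) x.2, x.2)
      map_add' := fun x y => by
        ext
        · simp only [Prod.fst_add, Prod.snd_add, map_add]; abel
        · rfl
      map_smul' := fun c x => by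
        ext
        · simp only [Prod.smul_fst, Prod.smul_snd, map_smul, RingHom.id_apply, smul_add]
        · rfl
      invFun := fun x => (vE.symm (x.1 - (w - 1) x.2), x.2)
      left_inv := fun x => by simp
      right_inv := fun x => by simp }
  let β : (W × W) ≃ₗ[K] (W × W) :=
    { toFun := fun x => (x.2, (w - 1) x.2 - vE x.1)
      map_add' := fun x y => by
        ext
        · rfl
        · simp only [Prod.fst_add, Prod.snd_add, map_add]; abel
      map_smul' := fun c x => by
        ext
        · rfl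
        · simp only [Prod.smul_fst, Prod.smul_snd, map_smul, RingHom.id_apply, smul_sub]
      invFun := fun x => (vE.symm ((w - 1) x.1 - x.2), x.1)
      left_inv := fun x => by simp
      right_inv := fun x => by simp }
  rw [rk_conj (psi K W).symm (Gw w - 1) (TensorProduct.map (J2 K) w - 1), ← rk_prodMap]
  · symm
    apply rk_equiv e β ((Gw w - 1) ^ (j + 1)) (LinearMap.prodMap ((w - 1) ^ j) ((w - 1) ^ (j + 2)))
    rintro ⟨x, y⟩
    rw [Gw_pow]
    show (((w - 1) ^ j) (vE x + (w - 1) y), ((w - 1) ^ (j + 2)) y) =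
      (((w - 1) ^ j) (((j : K) + 1) • w x) + ((w - 1) ^ (j + 1)) y,
        (w - 1) (((w - 1) ^ j) (((j : K) + 1) • w x) + ((w - 1) ^ (j + 1)) y) -
          vE (((w - 1) ^ (j + 1)) x))
    rw [← hvE]
    ext
    · show ((w - 1) ^ j) (vE x + (w - 1) y) = ((w - 1) ^ j) (vE x) + ((w - 1) ^ (j + 1)) y
      rw [map_add, pow_succ (w - 1) j, Module.End.mul_apply]
    · show ((w - 1) ^ (j + 2)) y = (w - 1) (((w - 1) ^ j) (vE x) + ((w - 1) ^ (j + 1)) y) -
          vE (((w - 1) ^ (j + 1)) x)
      rw [map_add, hvN, ← Module.End.mul_apply (w - 1) ((w - 1) ^ j), ← pow_succ',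
        ← Module.End.mul_apply (w - 1) ((w - 1) ^ (j + 1)), ← pow_succ']
      abel
  · intro x
    apply (psi K W).injective
    rw [LinearMap.sub_apply, map_sub, psi_map, LinearEquiv.apply_symm_apply,
      LinearEquiv.apply_symm_apply, LinearMap.sub_apply, Module.End.one_apply,
      Module.End.one_apply, LinearEquiv.apply_symm_apply]

end two

/-- The odd extension. -/
def od (c : ℕ → ℤ) (j : ℤ) : ℤ := if 0 < j then c j.toNat else if j < 0 then -c (-j).toNat else 0

lemma od_nat (c : ℕ → ℤ) {m : ℕ} (hm : 1 ≤ m) : od c m = c m := by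
  have : (0 : ℤ) < m := by exact_mod_cast hm
  rw [od, if_pos this, Int.toNat_natCast]

lemma od_zero (c : ℕ → ℤ) : od c 0 = 0 := by simp [od]

lemma od_neg (c : ℕ → ℤ) (j : ℤ) : od c (-j) = -od c j := by
  unfold od
  rcases lt_trichotomy j 0 with h | h | h
  · rw [if_pos (by omega), if_neg (by omega), if_pos h]; simp
  · subst h; simp
  · rw [if_neg (by omega), if_pos (by omega), if_pos h]; simp

lemma od_congr {c c' : ℕ → ℤ} (h : ∀ m, 1 ≤ m → c m = c' m) (j : ℤ) : od c j = od c' j := by
  unfold od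
  split_ifs with h1 h2
  · exact h _ (by omega)
  · rw [h _ (by omega)]
  · rfl

lemma od_lin {ι : Type*} (s : Finset ι) (a : ι → ℤ) (c : ι → ℕ → ℤ) (j : ℤ) :
    od (fun m => ∑ i ∈ s, a i * c i m) j = ∑ i ∈ s, a i * od (c i) j := by
  unfold od
  split_ifs with h1 h2
  · rfl
  · rw [← Finset.sum_neg_distrib]; exact Finset.sum_congr rfl fun _ _ => by ring
  · simp

lemma od_shift (c c' : ℕ → ℤ) (h1 : c' 1 = c 2) (h : ∀ m, 1 ≤ m → c' (m + 1) = c m + c (m + 2))
    (j : ℤ) : od c' j = od c (j - 1) + od c (j + 1) := by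
  have key : ∀ m : ℕ, 1 ≤ m → od c' m = od c ((m : ℤ) - 1) + od c ((m : ℤ) + 1) := by
    intro m hm
    rw [od_nat c' hm]
    have e2 : od c ((m : ℤ) + 1) = c (m + 1) := by
      have := od_nat c (m := m + 1) (by omega)
      rwa [Nat.cast_add, Nat.cast_one] at this
    obtain ⟨n, rfl⟩ := Nat.exists_eq_add_of_le hm
    rcases Nat.eq_zero_or_pos n with h0 | h0
    · subst h0
      rw [e2]
      simp [od_zero, h1]
    · have e1 : od c (((1 + n : ℕ) : ℤ) - 1) = c n := by
        have : (((1 + n : ℕ) : ℤ) - 1) = (n : ℤ) := by push_cast; ring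
        rw [this, od_nat c h0]
      rw [e1, e2, add_comm 1 n, h n h0]
  rcases lt_trichotomy j 0 with h | h | h
  · obtain ⟨m, hm⟩ : ∃ m : ℕ, -j = m := ⟨(-j).toNat, by omega⟩
    have := key m (by omega)
    rw [← hm] at this
    rw [od_neg] at this
    have e1 : -j - 1 = -(j + 1) := by ring
    have e2 : -j + 1 = -(j - 1) := by ring
    rw [e1, e2, od_neg, od_neg] at this
    linarith
  · subst h
    rw [od_zero, zero_sub, zero_add, od_neg]; ring
  · obtain ⟨m, rfl⟩ : ∃ m : ℕ, j = m := ⟨j.toNat, by omega⟩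
    exact key m (by omega)

/-- The second difference. -/
def d2 (r : ℕ → ℤ) (m : ℕ) : ℤ := r (m - 1) + r (m + 1) - 2 * r m

/-- The character (times the Weyl denominator). -/
noncomputable def Af {V : Type*} [AddCommGroup V] [Module K V] (N : V →ₗ[K] V) : ℤ → ℤ :=
  od (nb N)

lemma Af_J2 [CharZero K] {W : Type*} [AddCommGroup W] [Module K W] [Module.Finite K W]
    (w : W →ₗ[K] W) (hw : IsNilpotent (w - 1)) (j : ℤ) :
    Af (TensorProduct.map (J2 K) w - 1) j = Af (w - 1) (j - 1) + Af (w - 1) (j + 1) := by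
  have h0 : rk ((TensorProduct.map (J2 K) w - 1) ^ 0) = 2 * rk ((w - 1) ^ 0) := by
    rw [pow_zero, pow_zero, rk_one, rk_one, Module.finrank_tensorProduct, Module.finrank_prod,
      Module.finrank_self]
  apply od_shift
  · unfold nb
    have h1 := rk_J2 w hw 0
    have h2 := rk_J2 w hw 1
    simp only [Nat.sub_self, h0, Nat.reduceAdd, Nat.reduceSub, zero_add] at h1 h2 ⊢
    omega
  · intro m hm
    obtain ⟨n, rfl⟩ := Nat.exists_eq_add_of_le' hm
    unfold nb
    have h1 := rk_J2 w hw n
    have h2 := rk_J2 w hw (n + 1)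
    have h3 := rk_J2 w hw (n + 2)
    have e1 : n + 1 + 1 - 1 = n + 1 := by omega
    have e2 : n + 1 - 1 = n := by omega
    have e3 : n + 1 + 2 - 1 = n + 2 := by omega
    rw [e1, e2, e3]
    have e4 : n + 1 + 1 + 1 = n + 3 := by omega
    have e5 : n + 1 + 2 + 1 = n + 4 := by omega
    have e6 : n + 1 + 2 = n + 3 := by omega
    have e7 : n + 1 + 1 = n + 2 := by omega
    have e8 : n + 2 + 1 = n + 3 := by omega
    have e9 : n + 2 + 2 = n + 4 := by omega
    rw [e7, e6] at h2
    rw [e8, e9] at h3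
    rw [e4, e5, e6, e7]
    omega

lemma nb_Xm (k m : ℕ) (hm : 1 ≤ m) : nb (Xm K k) m = if m = k then 1 else 0 := by
  unfold nb
  rw [rk_Xm, rk_Xm, rk_Xm]
  split_ifs <;> omega

lemma nilpotent_Xm (k : ℕ) : IsNilpotent (Xm K k) := by
  refine ⟨k, ?_⟩
  have h := rk_Xm (K := K) k k
  rw [Nat.sub_self] at h
  have h1 : LinearMap.range (Xm K k ^ k) = ⊥ := Submodule.finrank_eq_zero.1 h
  exact LinearMap.range_eq_bot.1 h1

/-- A tensor product of unipotent operators is unipotent. -/
lemma nilpotent_map {U W : Type*} [AddCommGroup U] [Module K U] [AddCommGroup W] [Module K W]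
    (u : U →ₗ[K] U) (w : W →ₗ[K] W) (hu : IsNilpotent (u - 1)) (hw : IsNilpotent (w - 1)) :
    IsNilpotent (TensorProduct.map u w - 1) := by
  have e : TensorProduct.map u w - 1 = TensorProduct.map (u - 1) w + TensorProduct.map 1 (w - 1) := by
    apply TensorProduct.ext'
    intro x y
    simp only [LinearMap.sub_apply, LinearMap.add_apply, TensorProduct.map_tmul,
      Module.End.one_apply, sub_tmul, tmul_sub]
    abel
  rw [e]
  have hm1 : ∀ (a b : U →ₗ[K] U) (c d : W →ₗ[K] W), TensorProduct.map a c * TensorProduct.map b d =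
      TensorProduct.map (a * b) (c * d) := fun a b c d => (TensorProduct.map_comp _ _ _ _).symm
  have hpow : ∀ (a : U →ₗ[K] U) (c : W →ₗ[K] W) (n : ℕ), TensorProduct.map a c ^ n =
      TensorProduct.map (a ^ n) (c ^ n) := fun a c n => (TensorProduct.map_pow _ _ _)
  refine Commute.isNilpotent_add ?_ ?_ ?_
  · have hc : Commute w (w - 1) := (Commute.refl w).sub_right (Commute.one_right w)
    show _ * _ = _ * _
    rw [hm1, hm1, one_mul, mul_one, hc.eq]
  · obtain ⟨n, hn⟩ := hu
    refine ⟨n, ?_⟩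
    rw [hpow, hn, TensorProduct.map_zero_left]
  · obtain ⟨n, hn⟩ := hw
    refine ⟨n, ?_⟩
    rw [hpow, hn, TensorProduct.map_zero_right]

end Pool.Agent.L7h65.RL
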