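import Pool.Agent.L7h65.RL.Jc

/-!
# The Clebsch-Gordan rule for the numbers of Jordan blocks, II
-/

set_option autoImplicit false

namespace Pool.Agent.L7h65.RL

open TensorProduct Polynomial

universe v w

variable {K : Type*} [Field K]

lemma rk_zero {V V' : Type*} [AddCommGroup V] [Module K V] [AddCommGroup V'] [Module K V'] :
    rk (0 : V →ₗ[K] V') = 0 := by
  unfold rk
  rw [LinearMap.range_zero, finrank_bot]

section

variable {W : Type w} [AddCommGroup W] [Module K W] [Module.Finite K W]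

lemma rho_zero (w : W →ₗ[K] W) (i : ℕ) : rho w 0 i = 0 := by
  rw [rho, rk_zero_of_finrank]
  rw [Module.finrank_tensorProduct, finrank_Q, zero_mul]

lemma rho_one (w : W →ₗ[K] W) (i : ℕ) : rho w 1 i = rk ((w - 1) ^ i) := by
  have hN : IsNilpotent ((1 : K →ₗ[K] K) - 1) := by rw [sub_self]; exact IsNilpotent.zero
  obtain ⟨-, -, -, h⟩ := rk_tensor.{w} (1 : K →ₗ[K] K) hN
  have h1 := h w i
  rw [Module.finrank_self, Finset.Icc_self, Finset.sum_singleton] at h1
  have h2 : nb ((1 : K →ₗ[K] K) - 1) 1 = 1 := by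
    unfold nb
    rw [sub_self, Nat.sub_self, pow_zero, rk_one, zero_pow (by norm_num), zero_pow (by norm_num),
      rk_zero, Module.finrank_self]
    norm_num
  rw [h2, one_mul] at h1
  have h3 : rk ((TensorProduct.map (1 : K →ₗ[K] K) w - 1) ^ i) = rk ((w - 1) ^ i) := by
    symm
    refine rk_conj (TensorProduct.lid K W) (TensorProduct.map (1 : K →ₗ[K] K) w - 1) (w - 1) ?_ i
    intro x
    induction x with
    | zero => simp
    | add x y hx hy => rw [map_add, map_add, map_add, map_add, hx, hy]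
    | tmul x y =>
      simp only [LinearMap.sub_apply, Module.End.one_apply, TensorProduct.map_tmul,
        TensorProduct.lid_tmul, map_sub, map_smul, smul_sub]
  rw [h3] at h1
  exact_mod_cast h1.symm

lemma Af_Xm (s : ℕ) (hs : 1 ≤ s) (j : ℤ) :
    Af (Xm K s) j = (if j = s then 1 else 0) - (if j = -s then 1 else 0) := by
  unfold Af od
  split_ifs with h1 h2 h3 h4 h5 h6 h7 <;> first
    | omega
    | (rw [nb_Xm _ _ (by omega)]; split_ifs <;> omega)

lemma nilpotent_J2 : IsNilpotent (J2 K - 1) := by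
  refine ⟨2, ?_⟩
  apply LinearMap.ext
  rintro ⟨a, b⟩
  rw [pow_two, Module.End.mul_apply]
  simp [J2_apply]

omit [Module.Finite K W] in
lemma rk_assoc {U S : Type*} [AddCommGroup U] [Module K U] [AddCommGroup S] [Module K S]
    (a : U →ₗ[K] U) (x : S →ₗ[K] S) (w : W →ₗ[K] W) (i : ℕ) :
    rk ((TensorProduct.map (TensorProduct.map a x) w - 1) ^ i) =
      rk ((TensorProduct.map a (TensorProduct.map x w) - 1) ^ i) := by
  refine (rk_conj (TensorProduct.assoc K U S W)
    (TensorProduct.map (TensorProduct.map a x) w - 1)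
    (TensorProduct.map a (TensorProduct.map x w) - 1) ?_ i).symm
  intro t
  rw [LinearMap.sub_apply, LinearMap.sub_apply, map_sub, Module.End.one_apply,
    Module.End.one_apply]
  congr 1
  induction t with
  | zero => simp
  | add x y hx hy => rw [map_add, map_add, map_add, map_add, hx, hy]
  | tmul x y =>
    induction x with
    | zero => simp
    | add x x' hx hy => rw [add_tmul, map_add, map_add, map_add, map_add, hx, hy]
    | tmul x z => simp only [TensorProduct.map_tmul, TensorProduct.assoc_tmul]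

lemma rho_rec [CharZero K] (w : W →ₗ[K] W) (s : ℕ) (hs : 1 ≤ s) (i : ℕ) :
    (rho w (s + 1) i : ℤ) + rho w (s - 1) i =
      rk ((TensorProduct.map (J2 K) (TensorProduct.map (1 + Xm K s) w) - 1) ^ i) := by
  have hX : IsNilpotent ((1 + Xm K s) - 1) := by rw [add_sub_cancel_left]; exact nilpotent_Xm s
  have hN := nilpotent_map (J2 K) (1 + Xm K s) nilpotent_J2 hX
  obtain ⟨-, -, -, h⟩ := rk_tensor.{w} _ hN
  have h1 := h w i
  have hA : ∀ m : ℕ, 1 ≤ m → nb (TensorProduct.map (J2 K) (1 + Xm K s) - 1) m =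
      (if m = s + 1 then 1 else 0) + (if m = s - 1 then 1 else 0) := by
    intro m hm
    rw [← od_nat (nb (TensorProduct.map (J2 K) (1 + Xm K s) - 1)) hm]
    have := Af_J2 (1 + Xm K s) hX m
    rw [add_sub_cancel_left, Af_Xm s hs, Af_Xm s hs] at this
    rw [← Af, this]
    split_ifs <;> omega
  rw [← rk_assoc (J2 K) (1 + Xm K s) w i]
  refine Eq.trans ?_ h1.symm
  have e1 : ∀ m ∈ Finset.Icc 1 (Module.finrank K ((K × K) ⊗[K] Q K s)),
      nb (TensorProduct.map (J2 K) (1 + Xm K s) - 1) m * (rho w m i : ℤ) =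
      (if m = s + 1 then (rho w m i : ℤ) else 0) + (if m = s - 1 then (rho w m i : ℤ) else 0) := by
    intro m hm
    rw [hA m (Finset.mem_Icc.1 hm).1, add_mul]
    congr 1 <;> split_ifs <;> simp
  rw [Finset.sum_congr rfl e1, Finset.sum_add_distrib, Finset.sum_ite_eq', Finset.sum_ite_eq']
  have hf : Module.finrank K ((K × K) ⊗[K] Q K s) = 2 * s := by
    rw [Module.finrank_tensorProduct, Module.finrank_prod, Module.finrank_self, finrank_Q]
  rw [hf, if_pos (Finset.mem_Icc.2 ⟨by omega, by omega⟩)]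
  congr 1
  split_ifs with h0
  · rfl
  · have : s - 1 = 0 := by
      by_contra h3
      exact h0 (Finset.mem_Icc.2 ⟨by omega, by omega⟩)
    rw [this, rho_zero, Nat.cast_zero]

/-- The two-step recursion. -/
lemma rec_sol (f : ℕ → ℤ → ℤ) (h0 : ∀ j, f 0 j = 0)
    (h : ∀ s j, f (s + 2) j + f s j = f (s + 1) (j - 1) + f (s + 1) (j + 1)) (s : ℕ) :
    ∀ j, f s j = ∑ k ∈ Finset.range s, f 1 (j + 1 - s + 2 * k) := by
  suffices H : (∀ j, f s j = ∑ k ∈ Finset.range s, f 1 (j + 1 - s + 2 * k)) ∧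
      (∀ j, f (s + 1) j = ∑ k ∈ Finset.range (s + 1), f 1 (j + 1 - (s + 1 : ℕ) + 2 * k)) from H.1
  induction s with
  | zero =>
    refine ⟨fun j => by simp [h0], fun j => ?_⟩
    simp
  | succ s ih =>
    refine ⟨ih.2, fun j => ?_⟩
    have h1 := h s j
    rw [ih.1 j, ih.2 (j - 1), ih.2 (j + 1)] at h1
    rw [Finset.sum_range_succ]
    have e1 : ∑ k ∈ Finset.range (s + 1), f 1 (j - 1 + 1 - (s + 1 : ℕ) + 2 * k) =
        ∑ k ∈ Finset.range (s + 1), f 1 (j + 1 - (s + 1 + 1 : ℕ) + 2 * k) :=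
      Finset.sum_congr rfl fun k _ => by congr 1; push_cast; ring
    have e2 : ∑ k ∈ Finset.range s, f 1 (j + 1 + 1 - (s + 1 : ℕ) + 2 * k) =
        ∑ k ∈ Finset.range s, f 1 (j + 1 - s + 2 * k) :=
      Finset.sum_congr rfl fun k _ => by congr 1; push_cast; ring
    have e3 : (j + 1 + 1 - (s + 1 : ℕ) + 2 * s : ℤ) = j + 1 - (s + 1 + 1 : ℕ) + 2 * (s + 1 : ℕ) := by
      push_cast; ring
    rw [← e3]
    have e4 := Finset.sum_range_succ (fun k : ℕ => f 1 (j + 1 + 1 - (s + 1 : ℕ) + 2 * k)) s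
    have e5 : f (s + 1 + 1) j = f (s + 2) j := rfl
    linarith

/-- The Clebsch-Gordan rule. -/
theorem rho_eq [CharZero K] (w : W →ₗ[K] W) (hw : IsNilpotent (w - 1)) (s : ℕ) (j : ℤ) :
    od (d2 (fun i => (rho w s i : ℤ))) j =
      ∑ k ∈ Finset.range s, Af (w - 1) (j + 1 - s + 2 * k) := by
  have h := rec_sol (fun s j => od (d2 (fun i => (rho w s i : ℤ))) j) ?_ ?_ s j
  · rw [h]
    refine Finset.sum_congr rfl fun k _ => ?_
    refine od_congr (fun m _ => ?_) _
    show d2 (fun i => (rho w 1 i : ℤ)) m = nb (w - 1) m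
    unfold d2 nb
    simp only [rho_one]
  · intro j
    have : od (d2 (fun i => (rho w 0 i : ℤ))) j = od (fun m => ∑ i ∈ (∅ : Finset ℕ), 0 * 0) j := by
      refine od_congr (fun m _ => ?_) _
      simp [d2, rho_zero]
    rw [this, od_lin]
    simp
  · intro s j
    have hX : IsNilpotent ((1 + Xm K (s + 1)) - 1) := by
      rw [add_sub_cancel_left]; exact nilpotent_Xm _
    have h1 := Af_J2 (TensorProduct.map (1 + Xm K (s + 1)) w) (nilpotent_map _ _ hX hw) j
    have h2 : Af (TensorProduct.map (J2 K) (TensorProduct.map (1 + Xm K (s + 1)) w) - 1) j =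
        od (d2 (fun i => (rho w (s + 2) i : ℤ))) j + od (d2 (fun i => (rho w s i : ℤ))) j := by
      have e1 := od_lin (Finset.univ : Finset Bool) (fun _ => 1)
        (fun b => d2 (fun i => (rho w (if b then s + 2 else s) i : ℤ))) j
      simp only [Fintype.sum_bool, one_mul, if_true, Bool.false_eq_true, if_false] at e1
      rw [← e1]
      refine od_congr (fun m _ => ?_) _
      unfold nb d2
      rw [← rho_rec w (s + 1) (by omega), ← rho_rec w (s + 1) (by omega),
        ← rho_rec w (s + 1) (by omega)]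
      simp only [Nat.add_sub_cancel]
      ring
    rw [← h2, h1]
    rfl

/-- The character of a tensor product. -/
theorem Af_map [CharZero K] {U : Type*} [AddCommGroup U] [Module K U] [Module.Finite K U]
    (u : U →ₗ[K] U) (hu : IsNilpotent (u - 1)) (w : W →ₗ[K] W) (hw : IsNilpotent (w - 1)) (j : ℤ) :
    Af (TensorProduct.map u w - 1) j = ∑ m ∈ Finset.Icc 1 (Module.finrank K U),
      nb (u - 1) m * ∑ k ∈ Finset.range m, Af (w - 1) (j + 1 - m + 2 * k) := by
  obtain ⟨-, -, -, h⟩ := rk_tensor.{w} u hu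
  have h1 := od_lin (Finset.Icc 1 (Module.finrank K U)) (fun m => nb (u - 1) m)
    (fun m => d2 (fun i => (rho w m i : ℤ))) j
  simp only [rho_eq w hw] at h1
  rw [← h1]
  refine od_congr (fun m' _ => ?_) _
  unfold nb d2
  rw [h w, h w, h w, Finset.mul_sum, ← Finset.sum_add_distrib, ← Finset.sum_sub_distrib]
  refine Finset.sum_congr rfl fun m _ => ?_
  unfold nb
  ring

end

end Pool.Agent.L7h65.RL
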