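import Mathlib

/-!
# Sup-norm bounds for powers of a sum of shifts
-/

set_option autoImplicit false

namespace Pool.Agent.L7h65.RL

/-- Binomial coefficients, indexed symmetrically. -/
def bb : ℕ → ℤ → ℤ
  | 0, j => if j = 0 then 1 else 0
  | n + 1, j => bb n (j - 1) + bb n (j + 1)

lemma bb_succ (n : ℕ) (j : ℤ) : bb (n + 1) j = bb n (j - 1) + bb n (j + 1) := rfl

lemma bb_nonneg (n : ℕ) : ∀ j, 0 ≤ bb n j := by
  induction n with
  | zero => intro j; unfold bb; split_ifs <;> norm_num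
  | succ n ih => intro j; rw [bb_succ]; exact add_nonneg (ih _) (ih _)

lemma bb_neg (n : ℕ) : ∀ j, bb n (-j) = bb n j := by
  induction n with
  | zero => intro j; unfold bb; simp
  | succ n ih =>
    intro j
    have e1 : -j - 1 = -(j + 1) := by ring
    have e2 : -j + 1 = -(j - 1) := by ring
    rw [bb_succ, bb_succ, e1, e2, ih, ih, add_comm]

lemma bb_mono (n : ℕ) : ∀ j, -1 ≤ j → bb n (j + 2) ≤ bb n j := by
  induction n with
  | zero => intro j hj; unfold bb; split_ifs <;> omega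
  | succ n ih =>
    intro j hj
    rw [bb_succ, bb_succ]
    have e1 : j + 2 - 1 = j + 1 := by ring
    have e2 : j + 2 + 1 = j + 1 + 2 := by ring
    rw [e1, e2]
    have h1 := ih (j + 1) (by omega)
    rcases eq_or_lt_of_le hj with h | h
    · subst h
      have h2 := bb_neg n (-1 + 1 + 2)
      norm_num at h2 ⊢
      rw [h2]; omega
    · have h3 := ih (j - 1) (by omega)
      have e3 : j - 1 + 2 = j + 1 := by ring
      rw [e3] at h3
      omega

lemma bb_sum (n : ℕ) : ∀ (c : ℤ) (N : ℕ), ∑ i ∈ Finset.range N, bb n (c + 2 * i) ≤ 2 ^ n := by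
  induction n with
  | zero =>
    intro c N
    unfold bb
    rw [pow_zero]
    by_cases h : ∃ i ∈ Finset.range N, c + 2 * (i : ℤ) = 0
    · obtain ⟨i, hi, hc⟩ := h
      rw [Finset.sum_eq_single i]
      · split_ifs <;> norm_num
      · intro i' _ hne
        rw [if_neg]; omega
      · intro h; exact absurd hi h
    · push Not at h
      rw [Finset.sum_eq_zero fun i hi => if_neg (h i hi)]
      norm_num
  | succ n ih =>
    intro c N
    simp only [bb_succ]
    rw [Finset.sum_add_distrib]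
    have h1 := ih (c - 1) N
    have h2 := ih (c + 1) N
    have e1 : ∑ i ∈ Finset.range N, bb n (c + 2 * i - 1) =
        ∑ i ∈ Finset.range N, bb n (c - 1 + 2 * i) :=
      Finset.sum_congr rfl fun i _ => by congr 1; ring
    have e2 : ∑ i ∈ Finset.range N, bb n (c + 2 * i + 1) =
        ∑ i ∈ Finset.range N, bb n (c + 1 + 2 * i) :=
      Finset.sum_congr rfl fun i _ => by congr 1; ring
    rw [e1, e2, pow_succ]
    linarith

lemma bb_anti (n : ℕ) (l : ℤ) (hl : -1 ≤ l) (t : ℕ) : bb n (l + 2 * t) ≤ bb n l := by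
  induction t with
  | zero => simp
  | succ t ih =>
    refine le_trans ?_ ih
    have := bb_mono n (l + 2 * t) (by omega)
    refine le_trans (le_of_eq ?_) this
    congr 1; push_cast; ring

lemma bb_le (n j : ℕ) : ((j : ℤ) + 1) * bb n j ≤ 2 ^ n := by
  refine le_trans ?_ (bb_sum n (-j) (j + 1))
  have h1 : ∀ i ∈ Finset.range (j + 1), bb n j ≤ bb n (-j + 2 * i) := by
    intro i hi
    rw [Finset.mem_range] at hi
    rcases le_total (j : ℤ) (2 * i) with h | h
    · have := bb_anti n (-j + 2 * i) (by omega) (j - i)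
      refine le_trans (le_of_eq ?_) this
      congr 1
      have : ((j - i : ℕ) : ℤ) = j - i := by omega
      rw [this]; ring
    · have := bb_anti n (j - 2 * i) (by omega) i
      rw [← bb_neg n (j - 2 * i)] at this
      have e1 : -((j : ℤ) - 2 * i) = -j + 2 * i := by ring
      have e2 : ((j : ℤ) - 2 * i + 2 * i) = j := by ring
      rwa [e1, e2] at this
  have h2 := Finset.card_nsmul_le_sum _ _ _ h1
  rw [Finset.card_range, nsmul_eq_mul] at h2
  push_cast at h2
  exact h2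

lemma bb_der (n : ℕ) : ∀ j : ℤ, j * bb (n + 1) j = (n + 1) * (bb n (j - 1) - bb n (j + 1)) := by
  induction n with
  | zero =>
    intro j
    rw [bb_succ]
    unfold bb
    split_ifs <;> first
      | omega
      | (push_cast; nlinarith)
  | succ n ih =>
    intro j
    have h1 := ih (j - 1)
    have h2 := ih (j + 1)
    rw [bb_succ (n + 1) j]
    have e1 : j - 1 + 1 = j := by ring
    have e2 : j + 1 - 1 = j := by ring
    rw [e1] at h1
    rw [e2] at h2
    have h3 := bb_succ n (j - 1)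
    have h4 := bb_succ n (j + 1)
    rw [e1] at h3
    rw [e2] at h4
    push_cast
    have h5 : j * (bb (n + 1) (j - 1) + bb (n + 1) (j + 1)) =
        (j - 1) * bb (n + 1) (j - 1) + (j + 1) * bb (n + 1) (j + 1) +
          (bb (n + 1) (j - 1) - bb (n + 1) (j + 1)) := by ring
    rw [h5, h1, h2, h3, h4]
    ring

/-- The bound for the differences. -/
lemma bb_diff (n : ℕ) (j : ℤ) : (n + 1) * |bb n (j - 1) - bb n (j + 1)| ≤ 2 ^ (n + 1) := by
  have h0 : ((n : ℤ) + 1) * |bb n (j - 1) - bb n (j + 1)| = |j| * bb (n + 1) j := by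
    rw [← abs_of_nonneg (bb_nonneg (n + 1) j), ← abs_mul, bb_der, abs_mul,
      abs_of_nonneg (by positivity : (0 : ℤ) ≤ (n : ℤ) + 1)]
  rw [h0]
  have key : ∀ m : ℕ, (m : ℤ) * bb (n + 1) m ≤ 2 ^ (n + 1) := by
    intro m
    have h1 := bb_le (n + 1) m
    have h2 := bb_nonneg (n + 1) m
    nlinarith
  rcases le_total 0 j with h | h
  · obtain ⟨m, rfl⟩ := Int.eq_ofNat_of_zero_le h
    rw [abs_of_nonneg h]
    exact key m
  · obtain ⟨m, hm⟩ := Int.eq_ofNat_of_zero_le (a := -j) (by omega)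
    rw [abs_of_nonpos h, ← bb_neg, hm]
    exact key m

/-- Shifts. -/
def Sh (a : ℤ) : Module.End ℤ (ℤ → ℤ) where
  toFun f := fun j => f (j + a)
  map_add' _ _ := rfl
  map_smul' _ _ := rfl

lemma Sh_apply (a : ℤ) (f : ℤ → ℤ) (j : ℤ) : Sh a f j = f (j + a) := rfl

lemma Sh_mul (a b : ℤ) : Sh a * Sh b = Sh (a + b) := by
  apply LinearMap.ext
  intro f
  funext j
  show f (j + a + b) = f (j + (a + b))
  rw [add_assoc]

lemma Sh_comm (a b : ℤ) : Commute (Sh a) (Sh b) := by
  show _ * _ = _ * _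
  rw [Sh_mul, Sh_mul, add_comm]

/-- Nonnegative combinations of shifts with total weight `x`. -/
def NN (T : Module.End ℤ (ℤ → ℤ)) (x : ℤ) : Prop := 0 ≤ x ∧ (∀ a, Commute T (Sh a)) ∧
  ∀ (f : ℤ → ℤ) (B : ℤ), (∀ j, |f j| ≤ B) → ∀ j, |T f j| ≤ x * B

lemma NN.sh (a : ℤ) : NN (Sh a) 1 :=
  ⟨zero_le_one, fun b => Sh_comm a b, fun f B h j => by rw [one_mul]; exact h _⟩

lemma NN.zero : NN 0 0 :=
  ⟨le_rfl, fun b => Commute.zero_left _, fun f B h j => by simp⟩

lemma NN.add {T T' : Module.End ℤ (ℤ → ℤ)} {x x' : ℤ} (h : NN T x) (h' : NN T' x') :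
    NN (T + T') (x + x') := by
  refine ⟨add_nonneg h.1 h'.1, fun a => (h.2.1 a).add_left (h'.2.1 a), fun f B hB j => ?_⟩
  rw [LinearMap.add_apply, Pi.add_apply, add_mul]
  exact (abs_add_le _ _).trans (add_le_add (h.2.2 f B hB j) (h'.2.2 f B hB j))

lemma NN.smul {T : Module.End ℤ (ℤ → ℤ)} {x : ℤ} (h : NN T x) {c : ℤ} (hc : 0 ≤ c) :
    NN (c • T) (c * x) := by
  refine ⟨mul_nonneg hc h.1, fun a => (h.2.1 a).smul_left c, fun f B hB j => ?_⟩
  rw [LinearMap.smul_apply, Pi.smul_apply, smul_eq_mul, abs_mul, abs_of_nonneg hc, mul_assoc]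
  exact mul_le_mul_of_nonneg_left (h.2.2 f B hB j) hc

lemma NN.sum {ι : Type*} (s : Finset ι) (T : ι → Module.End ℤ (ℤ → ℤ)) (x : ι → ℤ)
    (h : ∀ i ∈ s, NN (T i) (x i)) : NN (∑ i ∈ s, T i) (∑ i ∈ s, x i) := by
  classical
  induction s using Finset.induction_on with
  | empty => simpa using NN.zero
  | insert i s hi ih =>
    rw [Finset.sum_insert hi, Finset.sum_insert hi]
    exact (h i (Finset.mem_insert_self _ _)).add
      (ih fun k hk => h k (Finset.mem_insert_of_mem hk))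

lemma NN.pow {T : Module.End ℤ (ℤ → ℤ)} {x : ℤ} (h : NN T x) (n : ℕ) (f : ℤ → ℤ) (B : ℤ)
    (hB : ∀ j, |f j| ≤ B) : ∀ j, |(T ^ n) f j| ≤ x ^ n * B := by
  induction n with
  | zero => intro j; simpa using hB j
  | succ n ih =>
    intro j
    rw [pow_succ', Module.End.mul_apply, pow_succ', mul_assoc]
    exact h.2.2 _ _ ih j

lemma NN.cast {T : Module.End ℤ (ℤ → ℤ)} {x x' : ℤ} (h : NN T x) (e : x = x') : NN T x' := e ▸ h

/-- The starting function. -/
def hh (j : ℤ) : ℤ := (if j = 1 then 1 else 0) - (if j = -1 then 1 else 0)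

lemma Dpow (k : ℕ) : ∀ j, (((Sh (-1) + Sh 1) ^ k) hh) j = bb k (j - 1) - bb k (j + 1) := by
  induction k with
  | zero =>
    intro j
    rw [pow_zero, Module.End.one_apply]
    unfold hh bb
    split_ifs <;> omega
  | succ k ih =>
    intro j
    rw [pow_succ', Module.End.mul_apply, LinearMap.add_apply, Pi.add_apply, Sh_apply, Sh_apply,
      ih, ih, bb_succ, bb_succ]
    have e1 : j + -1 - 1 = j - 1 - 1 := by ring
    have e2 : j + -1 + 1 = j - 1 + 1 := by ring
    rw [e1, e2]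
    ring

/-- The key bound. -/
theorem key_bound (a : ℤ) (Q : Module.End ℤ (ℤ → ℤ)) (q : ℤ) (hQ : NN Q q) (m : ℕ) (j : ℤ) :
    ((m : ℤ) + 1) * |((Sh (a - 1) + Sh (a + 1) + Q) ^ m) hh j| ≤ (2 + q) ^ (m + 1) := by
  set P : Module.End ℤ (ℤ → ℤ) := Sh (a - 1) + Sh (a + 1) with hP
  have hPD : P = Sh a * (Sh (-1) + Sh 1) := by
    rw [mul_add, Sh_mul, Sh_mul, hP]; rfl
  have hcQ : Commute P Q := by
    rw [hP]
    exact ((hQ.2.1 _).symm).add_left ((hQ.2.1 _).symm)
  have hShp : ∀ k : ℕ, Sh a ^ k = Sh (k * a) := by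
    intro k
    induction k with
    | zero =>
      rw [pow_zero]; apply LinearMap.ext; intro f; funext j
      rw [Sh_apply]; simp
    | succ k ih => rw [pow_succ, ih, Sh_mul]; congr 1; push_cast; ring
  have hPk : ∀ (k : ℕ) (j : ℤ), ((k : ℤ) + 1) * |(P ^ k) hh j| ≤ 2 ^ (k + 1) := by
    intro k j
    rw [hPD, ((Sh_comm a (-1)).add_right (Sh_comm a 1)).mul_pow, hShp, Module.End.mul_apply,
      Sh_apply, Dpow]
    exact bb_diff k _
  rw [hcQ.add_pow, LinearMap.sum_apply, Finset.sum_apply]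
  calc ((m : ℤ) + 1) * |∑ k ∈ Finset.range (m + 1), (P ^ k * Q ^ (m - k) * (m.choose k : Module.End ℤ (ℤ → ℤ))) hh j|
      ≤ ((m : ℤ) + 1) * ∑ k ∈ Finset.range (m + 1), |(P ^ k * Q ^ (m - k) * (m.choose k : Module.End ℤ (ℤ → ℤ))) hh j| :=
        mul_le_mul_of_nonneg_left (Finset.abs_sum_le_sum_abs _ _) (by positivity)
    _ = ∑ k ∈ Finset.range (m + 1), ((m : ℤ) + 1) * |(P ^ k * Q ^ (m - k) * (m.choose k : Module.End ℤ (ℤ → ℤ))) hh j| :=
        Finset.mul_sum _ _ _
    _ ≤ ∑ k ∈ Finset.range (m + 1), 2 ^ (k + 1) * q ^ (m - k) * ((m + 1).choose (k + 1) : ℤ) := by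
        refine Finset.sum_le_sum fun k _ => ?_
        have e1 : (P ^ k * Q ^ (m - k) * (m.choose k : Module.End ℤ (ℤ → ℤ))) hh j =
            (m.choose k : ℤ) * (Q ^ (m - k)) ((P ^ k) hh) j := by
          rw [(hcQ.pow_pow k (m - k)).eq, ← nsmul_eq_mul', LinearMap.smul_apply, Pi.smul_apply,
            Module.End.mul_apply, nsmul_eq_mul]
        rw [e1, abs_mul, abs_of_nonneg (by positivity : (0 : ℤ) ≤ (m.choose k : ℤ)), ← mul_assoc]
        have e2 : ((m : ℤ) + 1) * (m.choose k : ℤ) = ((m + 1).choose (k + 1) : ℤ) * ((k : ℤ) + 1) := by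
          have := Nat.add_one_mul_choose_eq m k
          exact_mod_cast this
        rw [e2, mul_assoc]
        have e3 : ((k : ℤ) + 1) * |(Q ^ (m - k)) ((P ^ k) hh) j| ≤ q ^ (m - k) * 2 ^ (k + 1) := by
          have h1 := hQ.pow (m - k) ((k + 1 : ℤ) • (P ^ k) hh) (2 ^ (k + 1)) (fun j => by
            rw [Pi.smul_apply, smul_eq_mul, abs_mul,
              abs_of_nonneg (by positivity : (0 : ℤ) ≤ (k : ℤ) + 1)]
            exact hPk k j) j
          rw [map_smul, Pi.smul_apply, smul_eq_mul, abs_mul,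
            abs_of_nonneg (by positivity : (0 : ℤ) ≤ (k : ℤ) + 1)] at h1
          exact h1
        calc ((m + 1).choose (k + 1) : ℤ) * (((k : ℤ) + 1) * |(Q ^ (m - k)) ((P ^ k) hh) j|)
            ≤ ((m + 1).choose (k + 1) : ℤ) * (q ^ (m - k) * 2 ^ (k + 1)) :=
              mul_le_mul_of_nonneg_left e3 (by positivity)
          _ = _ := by ring
    _ ≤ (2 + q) ^ (m + 1) := by
        rw [add_pow, Finset.sum_range_succ' _ (m + 1)]
        have e4 : ∑ k ∈ Finset.range (m + 1), 2 ^ (k + 1) * q ^ (m - k) * ((m + 1).choose (k + 1) : ℤ) =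
            ∑ k ∈ Finset.range (m + 1), 2 ^ (k + 1) * q ^ (m + 1 - (k + 1)) * ((m + 1).choose (k + 1) : ℤ) :=
          Finset.sum_congr rfl fun k _ => by rw [Nat.add_sub_add_right]
        rw [e4]
        have : 0 ≤ q ^ (m + 1) := pow_nonneg hQ.1 _
        simp only [pow_zero, Nat.sub_zero, Nat.choose_zero_right, one_mul, Nat.cast_one, mul_one]
        linarith

end Pool.Agent.L7h65.RL
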