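import Pool.Agent.L7h65.RL.Jd
import Pool.Agent.L7h65.RL.Je

/-!
# The numbers of Jordan blocks in the tensor powers of a unipotent operator
-/

set_option autoImplicit false

namespace Pool.Agent.L7h65.RL

open TensorProduct Polynomial

universe v w

/-- The character of a block as an operator. -/
def Ub (m : ℕ) : Module.End ℤ (ℤ → ℤ) := ∑ k ∈ Finset.range m, Sh (1 - m + 2 * k)

lemma Ub_apply (m : ℕ) (f : ℤ → ℤ) (j : ℤ) :
    Ub m f j = ∑ k ∈ Finset.range m, f (j + 1 - m + 2 * k) := by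
  unfold Ub
  rw [LinearMap.sum_apply, Finset.sum_apply]
  exact Finset.sum_congr rfl fun k _ => by rw [Sh_apply]; congr 1; ring

lemma NN_Ub (m : ℕ) : NN (Ub m) m := by
  refine (NN.sum (Finset.range m) _ (fun _ => 1) fun k _ => NN.sh _).cast ?_
  simp

/-- The character as an operator. -/
def op (D : ℕ) (c : ℕ → ℤ) : Module.End ℤ (ℤ → ℤ) := ∑ m ∈ Finset.Icc 1 D, c m • Ub m

lemma op_apply (D : ℕ) (c : ℕ → ℤ) (f : ℤ → ℤ) (j : ℤ) : op D c f j =
    ∑ m ∈ Finset.Icc 1 D, c m * ∑ k ∈ Finset.range m, f (j + 1 - m + 2 * k) := by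
  unfold op
  rw [LinearMap.sum_apply, Finset.sum_apply]
  exact Finset.sum_congr rfl fun m _ => by
    rw [LinearMap.smul_apply, Pi.smul_apply, smul_eq_mul, Ub_apply]

lemma Ub_split (s : ℕ) (hs : 2 ≤ s) : Ub s = Sh ((2 - s : ℤ) - 1) + Sh ((2 - s : ℤ) + 1) +
    ∑ k ∈ Finset.range (s - 2), Sh (1 - s + 2 * ((k : ℤ) + 2)) := by
  obtain ⟨t, rfl⟩ := Nat.exists_eq_add_of_le' hs
  unfold Ub
  rw [Nat.add_sub_cancel, Finset.sum_range_succ', Finset.sum_range_succ']
  have e1 : (2 - ((t + 2 : ℕ) : ℤ) - 1) = 1 - ((t + 2 : ℕ) : ℤ) + 2 * (0 : ℕ) := by push_cast; ring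
  have e2 : (2 - ((t + 2 : ℕ) : ℤ) + 1) = 1 - ((t + 2 : ℕ) : ℤ) + 2 * (0 + 1 : ℕ) := by
    push_cast; ring
  rw [e1, e2]
  have e3 : ∑ k ∈ Finset.range t, Sh (1 - ((t + 2 : ℕ) : ℤ) + 2 * (k + 1 + 1 : ℕ)) =
      ∑ k ∈ Finset.range t, Sh (1 - ((t + 2 : ℕ) : ℤ) + 2 * ((k : ℤ) + 2)) :=
    Finset.sum_congr rfl fun k _ => by congr 1
  rw [e3]
  abel

theorem op_bound (D : ℕ) (c : ℕ → ℤ) (hc : ∀ m, 1 ≤ m → 0 ≤ c m)
    (hD : ∑ m ∈ Finset.Icc 1 D, c m * m = D) (s : ℕ) (hs : 2 ≤ s) (hsD : s ≤ D) (hcs : 1 ≤ c s)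
    (n : ℕ) (j : ℤ) : ((n : ℤ) + 1) * |((op D c) ^ n) hh j| ≤ (D : ℤ) ^ (n + 1) := by
  classical
  have hmem : s ∈ Finset.Icc 1 D := Finset.mem_Icc.2 ⟨by omega, hsD⟩
  set Q : Module.End ℤ (ℤ → ℤ) := (∑ k ∈ Finset.range (s - 2), Sh (1 - s + 2 * ((k : ℤ) + 2))) +
    (c s - 1) • Ub s + ∑ m ∈ (Finset.Icc 1 D).erase s, c m • Ub m with hQ
  have h1 : op D c = Sh ((2 - s : ℤ) - 1) + Sh ((2 - s : ℤ) + 1) + Q := by
    unfold op
    rw [← Finset.add_sum_erase _ _ hmem, hQ]
    have : c s • Ub s = Ub s + (c s - 1) • Ub s := by rw [sub_smul, one_smul]; abel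
    rw [this]
    nth_rewrite 1 [Ub_split s hs]
    abel
  have h2 : NN Q (D - 2) := by
    have h3 : NN Q (∑ k ∈ Finset.range (s - 2), (1 : ℤ) + (c s - 1) * s +
        ∑ m ∈ (Finset.Icc 1 D).erase s, c m * (m : ℤ)) :=
      ((NN.sum _ _ _ fun k _ => NN.sh _).add ((NN_Ub s).smul (by omega))).add
        (NN.sum _ _ _ fun m hm => (NN_Ub m).smul (hc m
          (Finset.mem_Icc.1 (Finset.mem_of_mem_erase hm)).1))
    refine h3.cast ?_
    rw [← Finset.add_sum_erase _ _ hmem] at hD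
    rw [Finset.sum_const, Finset.card_range, nsmul_eq_mul, mul_one, ← hD]
    push_cast [Nat.cast_sub hs]
    ring
  have h4 := key_bound (2 - s) Q (D - 2) h2 n j
  rw [← h1] at h4
  refine h4.trans (le_of_eq ?_)
  congr 1; ring

variable {K : Type v} [Field K]

lemma Af_conj {V V' : Type*} [AddCommGroup V] [Module K V] [AddCommGroup V'] [Module K V']
    (e : V ≃ₗ[K] V') (f : V →ₗ[K] V) (g : V' →ₗ[K] V') (h : ∀ x, g (e x) = e (f x)) :
    Af g = Af f := by
  funext j
  refine od_congr (fun m _ => ?_) j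
  unfold nb
  rw [rk_conj e f g h, rk_conj e f g h, rk_conj e f g h]

lemma Af_one : Af (0 : K →ₗ[K] K) = hh := by
  have h1 : ∀ m, 1 ≤ m → nb (0 : K →ₗ[K] K) m = if m = 1 then 1 else 0 := by
    intro m hm
    unfold nb
    rcases eq_or_lt_of_le hm with h | h
    · subst h
      rw [Nat.sub_self, pow_zero, rk_one, zero_pow (by norm_num), zero_pow (by norm_num), rk_zero,
        Module.finrank_self]
      norm_num
    · rw [zero_pow (by omega), zero_pow (by omega), zero_pow (by omega), rk_zero, if_neg (by omega)]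
      norm_num
  funext j
  unfold Af od hh
  split_ifs <;> first
    | omega
    | (rw [h1 _ (by omega)]; split_ifs <;> omega)

section

variable {U : Type w} [AddCommGroup U] [Module K U] [Module.Finite K U]

/-- The character of a unipotent operator. -/
theorem Af_self [CharZero K] (u : U →ₗ[K] U) (hu : IsNilpotent (u - 1)) :
    Af (u - 1) = op (Module.finrank K U) (nb (u - 1)) hh := by
  have hN : IsNilpotent ((1 : K →ₗ[K] K) - 1) := by rw [sub_self]; exact IsNilpotent.zero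
  funext j
  rw [op_apply, ← Af_one (K := K)]
  have h1 := Af_map.{v} u hu (1 : K →ₗ[K] K) hN j
  rw [sub_self] at h1
  rw [← h1]
  have h2 := Af_conj (TensorProduct.rid K U) (TensorProduct.map u (1 : K →ₗ[K] K) - 1) (u - 1) (by
    intro x
    induction x with
    | zero => simp
    | add x y hx hy => rw [map_add, map_add, map_add, map_add, hx, hy]
    | tmul x y =>
      simp only [LinearMap.sub_apply, Module.End.one_apply, TensorProduct.map_tmul,
        TensorProduct.rid_tmul, map_sub, map_smul, smul_sub])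
  rw [h2]

/-- A unipotent operator which is not the identity has a block of size at least two. -/
lemma exists_block (u : U →ₗ[K] U) (hu : IsNilpotent (u - 1)) (h1 : u ≠ 1) :
    ∃ s, 2 ≤ s ∧ s ≤ Module.finrank K U ∧ 1 ≤ nb (u - 1) s := by
  obtain ⟨hn, hz, hs, -⟩ := rk_tensor.{w} u hu
  by_contra hcon
  push Not at hcon
  have h2 : ∀ m ∈ Finset.Icc 1 (Module.finrank K U), 2 ≤ m → nb (u - 1) m = 0 := by
    intro m hm h2m
    have h3 := hcon m h2m (Finset.mem_Icc.1 hm).2
    have h4 := hn m (by omega)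
    omega
  have h3 : nb (u - 1) 1 = Module.finrank K U := by
    rcases Nat.eq_zero_or_pos (Module.finrank K U) with h0 | h0
    · rw [hz 1 (by omega), h0]; rfl
    · rw [← hs, Finset.sum_eq_single 1]
      · simp
      · intro m hm hne
        rw [h2 m hm (by have := (Finset.mem_Icc.1 hm).1; omega), zero_mul]
      · intro h; exact absurd (Finset.mem_Icc.2 ⟨le_rfl, h0⟩) h
  unfold nb at h3
  rw [Nat.sub_self, pow_zero, rk_one, pow_one] at h3
  have h4 : rk ((u - 1) ^ (1 + 1)) ≤ rk (u - 1) := by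
    rw [pow_succ, pow_one]
    exact Submodule.finrank_mono (LinearMap.range_comp_le_range (u - 1) (u - 1))
  have h5 : rk (u - 1) = 0 := by omega
  have h6 : LinearMap.range (u - 1) = ⊥ := Submodule.finrank_eq_zero.1 h5
  exact h1 (sub_eq_zero.1 (LinearMap.range_eq_bot.1 h6))

end

section

variable (V : ℕ → Type w) [∀ n, AddCommGroup (V n)] [∀ n, Module K (V n)]
  [∀ n, Module.Finite K (V n)] (e : ∀ n, (V 0 ⊗[K] V n) ≃ₗ[K] V (n + 1))
  (u : ∀ n, V n →ₗ[K] V n)

/-- The characters of the tensor powers. -/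
theorem Af_pow [CharZero K]
    (he : ∀ n, u (n + 1) ∘ₗ (e n).toLinearMap = (e n).toLinearMap ∘ₗ TensorProduct.map (u 0) (u n))
    (hu : IsNilpotent (u 0 - 1)) (n : ℕ) : IsNilpotent (u n - 1) ∧
    Af (u n - 1) = ((op (Module.finrank K (V 0)) (nb (u 0 - 1))) ^ (n + 1)) hh := by
  induction n with
  | zero => exact ⟨hu, by rw [zero_add, pow_one]; exact Af_self _ hu⟩
  | succ n ih =>
    have h1 : ∀ x, (u (n + 1) - 1) (e n x) = e n ((TensorProduct.map (u 0) (u n) - 1) x) := by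
      intro x
      have := LinearMap.congr_fun (he n) x
      simp only [LinearMap.comp_apply, LinearEquiv.coe_coe] at this
      rw [LinearMap.sub_apply, LinearMap.sub_apply, this, map_sub, Module.End.one_apply,
        Module.End.one_apply]
    refine ⟨?_, ?_⟩
    · obtain ⟨k, hk⟩ := nilpotent_map (u 0) (u n) hu ih.1
      refine ⟨k, ?_⟩
      apply LinearMap.ext
      intro y
      obtain ⟨x, rfl⟩ := (e n).surjective y
      have h2 := pow_int (e n).toLinearMap _ _ h1 k x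
      rw [hk] at h2
      simpa using h2
    · rw [Af_conj (e n) _ _ h1, pow_succ', Module.End.mul_apply, ← ih.2]
      funext j
      rw [Af_map (u 0) hu (u n) ih.1 j, op_apply]

end

end Pool.Agent.L7h65.RL
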